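import Mathlib

namespace Pool.Agent.P.MP_a62d3c_co

/-- points of the Euclidean plane -/
abbrev Pt : Type := EuclideanSpace ℝ (Fin 2)

/-- the orientation of an ordered triple: the sign of `det (b - a, c - a)` -/
noncomputable def orient (a b c : Pt) : SignType :=
  SignType.sign ((b 0 - a 0) * (c 1 - a 1) - (b 1 - a 1) * (c 0 - a 0))

/-- no three points of `S` are collinear -/
def GeneralPosition (S : Finset Pt) : Prop :=
  ∀ a ∈ S, ∀ b ∈ S, ∀ c ∈ S, a ≠ b → a ≠ c → b ≠ c → orient a b c ≠ 0

/-- the configuration (order type) of `S` has a realization with all distances integral: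
some map `f`, injective on `S`, preserves the orientation of every ordered triple of points of
`S`, and all Euclidean distances between image points are integers -/
def IntRealizable (S : Finset Pt) : Prop :=
  ∃ f : Pt → Pt, Set.InjOn f (S : Set Pt) ∧
    (∀ a ∈ S, ∀ b ∈ S, ∀ c ∈ S, orient (f a) (f b) (f c) = orient a b c) ∧
    ∀ a ∈ S, ∀ b ∈ S, ∃ n : ℕ, dist (f a) (f b) = n

end Pool.Agent.P.MP_a62d3c_co
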