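import Mathlib

namespace Pool.Agent.P.MP_a62d3c_co

/-- rational parameters for which both `1 + T^2` and `1 + (5/9)^2 T^2` are rational squares -/
def Good (T : ℚ) : Prop :=
  ∃ N D : ℚ, 0 < N ∧ 0 < D ∧ N ^ 2 = 1 + T ^ 2 ∧ D ^ 2 = 1 + 25 / 81 * T ^ 2

theorem good_of_sq {T N D : ℚ} (hN : N ^ 2 = 1 + T ^ 2) (hD : D ^ 2 = 1 + 25 / 81 * T ^ 2) :
    Good T := by
  refine ⟨|N|, |D|, abs_pos.2 ?_, abs_pos.2 ?_, by rwa [sq_abs], by rwa [sq_abs]⟩
  · rintro rfl; nlinarith [sq_nonneg T]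
  · rintro rfl; nlinarith [sq_nonneg T]

theorem good_zero : Good 0 := ⟨1, 1, by norm_num, by norm_num, by norm_num, by norm_num⟩

theorem Good.neg {T : ℚ} (h : Good T) : Good (-T) := by
  obtain ⟨N, D, h1, h2, h3, h4⟩ := h
  exact ⟨N, D, h1, h2, by rw [h3]; ring, by rw [h4]; ring⟩

theorem Good.abs {T : ℚ} (h : Good T) : Good |T| := by
  rcases abs_choice T with e | e <;> rw [e]
  · exact h
  · exact h.neg

theorem Good.inv {T : ℚ} (h : Good T) (hT : T ≠ 0) : Good (9 / (5 * T)) := by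
  obtain ⟨N, D, -, -, h3, h4⟩ := h
  refine good_of_sq (N := 9 * D / (5 * T)) (D := N / T) ?_ ?_
  · field_simp
    linear_combination 81 * h4
  · field_simp
    linear_combination 25 * 81 * h3

/-- the addition law -/
theorem good_add {a Na Da b Nb Db : ℚ} (h1 : Na ^ 2 = 1 + a ^ 2)
    (h2 : Da ^ 2 = 1 + 25 / 81 * a ^ 2) (h3 : Nb ^ 2 = 1 + b ^ 2)
    (h4 : Db ^ 2 = 1 + 25 / 81 * b ^ 2) (hd : Na * Nb - a * b * Da * Db ≠ 0) :
    Good ((a * Db * Na + b * Da * Nb) / (Na * Nb - a * b * Da * Db)) := by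
  have e1 : (1 + a ^ 2 + b ^ 2 + 25 / 81 * a ^ 2 * b ^ 2) ^ 2 =
      (Na * Nb - a * b * Da * Db) ^ 2 + (a * Db * Na + b * Da * Nb) ^ 2 := by
    have : (Na * Nb - a * b * Da * Db) ^ 2 + (a * Db * Na + b * Da * Nb) ^ 2 =
      Na ^ 2 * Nb ^ 2 + a ^ 2 * b ^ 2 * Da ^ 2 * Db ^ 2 + a ^ 2 * Db ^ 2 * Na ^ 2 +
        b ^ 2 * Da ^ 2 * Nb ^ 2 := by ring
    rw [this, h1, h2, h3, h4]; ring
  have e2 : (Da * Db * Na * Nb - 56 / 81 * a * b) ^ 2 =
      (Na * Nb - a * b * Da * Db) ^ 2 + 25 / 81 * (a * Db * Na + b * Da * Nb) ^ 2 := by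
    have : (Na * Nb - a * b * Da * Db) ^ 2 + 25 / 81 * (a * Db * Na + b * Da * Nb) ^ 2 -
      (Da * Db * Na * Nb - 56 / 81 * a * b) ^ 2 =
      Na ^ 2 * Nb ^ 2 + a ^ 2 * b ^ 2 * Da ^ 2 * Db ^ 2 + 25 / 81 * (a ^ 2 * Db ^ 2 * Na ^ 2 +
        b ^ 2 * Da ^ 2 * Nb ^ 2) - Da ^ 2 * Db ^ 2 * Na ^ 2 * Nb ^ 2 -
        (56 / 81) ^ 2 * a ^ 2 * b ^ 2 := by ring
    rw [h1, h2, h3, h4] at this
    linear_combination (-1) * this
  refine good_of_sq
    (N := (1 + a ^ 2 + b ^ 2 + 25 / 81 * a ^ 2 * b ^ 2) / (Na * Nb - a * b * Da * Db))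
    (D := (Da * Db * Na * Nb - 56 / 81 * a * b) / (Na * Nb - a * b * Da * Db)) ?_ ?_
  · rw [div_pow, div_pow, e1]; field_simp
  · rw [div_pow, div_pow, e2]; field_simp

theorem norm_one_of_sq {N t : ℚ} (h : N ^ 2 = 1 + t) (ht : padicNorm 2 t < 1) :
    padicNorm 2 N = 1 := by
  have h1 : padicNorm 2 (1 + t) = 1 := by
    rw [padicNorm.add_eq_max_of_ne (by simpa using ht.ne'), padicNorm.one, max_eq_left ht.le]
  rw [← h, sq, padicNorm.mul] at h1
  have := padicNorm.nonneg (p := 2) N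
  nlinarith

/-- doubling halves the 2-adic norm -/
theorem good_double {T : ℚ} (h : Good T) (hT : padicNorm 2 T < 1) :
    ∃ T', Good T' ∧ padicNorm 2 T' = padicNorm 2 T / 2 := by
  obtain ⟨N, D, -, -, h3, h4⟩ := h
  have n0 := padicNorm.nonneg (p := 2) T
  have k1 : padicNorm 2 (25 / 81) = 1 := by
    have a : padicNorm 2 (25 : ℕ) = 1 := (padicNorm.nat_eq_one_iff 25).2 (by norm_num)
    have b : padicNorm 2 (81 : ℕ) = 1 := (padicNorm.nat_eq_one_iff 81).2 (by norm_num)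
    push_cast at a b
    rw [padicNorm.div, a, b]; norm_num
  have hN : padicNorm 2 N = 1 := norm_one_of_sq h3 (by rw [sq, padicNorm.mul]; nlinarith)
  have hD : padicNorm 2 D = 1 :=
    norm_one_of_sq h4 (by rw [sq, padicNorm.mul, padicNorm.mul, k1]; nlinarith)
  have e : N * N - T * T * D * D = 1 + -(25 / 81 * (T * T) * (T * T)) := by
    linear_combination h3 - T ^ 2 * h4
  have hsm : padicNorm 2 (-(25 / 81 * (T * T) * (T * T))) < 1 := by
    rw [padicNorm.neg, padicNorm.mul, padicNorm.mul, padicNorm.mul, k1]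
    have : padicNorm 2 T * padicNorm 2 T < 1 := by nlinarith
    have h0 : 0 ≤ padicNorm 2 T * padicNorm 2 T := by positivity
    nlinarith
  have hden : padicNorm 2 (N * N - T * T * D * D) = 1 := by
    rw [e, padicNorm.add_eq_max_of_ne (by simpa using hsm.ne'), padicNorm.one,
      max_eq_left hsm.le]
  have hd : N * N - T * T * D * D ≠ 0 := by
    intro h0; rw [h0] at hden; simp at hden
  refine ⟨_, good_add h3 h4 h3 h4 hd, ?_⟩
  have two : padicNorm 2 (2 : ℚ) = 1 / 2 := by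
    have := padicNorm.padicNorm_p_of_prime (p := 2)
    push_cast at this
    rw [this]; norm_num
  rw [padicNorm.div, hden, show T * D * N + T * D * N = 2 * (T * D * N) by ring, padicNorm.mul,
    padicNorm.mul, padicNorm.mul, hN, hD, two]
  ring

theorem good_start : Good (12 / 5) :=
  ⟨13 / 5, 5 / 3, by norm_num, by norm_num, by norm_num, by norm_num⟩

theorem infinite_good : {T : ℚ | Good T}.Infinite := by
  have h0 : padicNorm 2 (12 / 5) = 1 / 4 := by
    have a : padicNorm 2 (3 : ℕ) = 1 := (padicNorm.nat_eq_one_iff 3).2 (by norm_num)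
    have b : padicNorm 2 (5 : ℕ) = 1 := (padicNorm.nat_eq_one_iff 5).2 (by norm_num)
    have two := padicNorm.padicNorm_p_of_prime (p := 2)
    push_cast at a b two
    rw [show (12 / 5 : ℚ) = 2 * (2 * 3) / 5 by norm_num, padicNorm.div, padicNorm.mul,
      padicNorm.mul, a, b, two]
    norm_num
  have key : ∀ n : ℕ, ∃ T, Good T ∧ padicNorm 2 T = 1 / 4 * (1 / 2) ^ n := by
    intro n
    induction n with
    | zero => exact ⟨_, good_start, by rw [h0]; norm_num⟩
    | succ n ih =>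
      obtain ⟨T, hT, hn⟩ := ih
      have : (1 / 2 : ℚ) ^ n ≤ 1 := pow_le_one₀ (by norm_num) (by norm_num)
      obtain ⟨T', hT', hn'⟩ := good_double hT (by rw [hn]; linarith)
      exact ⟨T', hT', by rw [hn', hn]; ring⟩
  choose f hf hn using key
  refine Set.infinite_of_injective_forall_mem (f := f) ?_ hf
  intro m n e
  have : (1 / 2 : ℚ) ^ m = (1 / 2) ^ n := by
    have := hn m
    rw [e, hn n] at this
    linarith
  exact pow_right_injective₀ (by norm_num) (by norm_num) this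

theorem infinite_good_bdd : {T : ℚ | Good T ∧ 0 ≤ T ∧ T ≤ 2}.Infinite := by
  intro hfin
  apply infinite_good
  let S := {T : ℚ | Good T ∧ 0 ≤ T ∧ T ≤ 2}
  refine Set.Finite.subset ((((hfin.union (hfin.image (fun t => -t))).union
    (hfin.image (fun t => 9 / (5 * t)))).union (hfin.image (fun t => -(9 / (5 * t)))))) ?_
  intro T hT
  have hT : Good T := hT
  by_cases h1 : |T| ≤ 2
  · left; left
    rcases le_total 0 T with h | h
    · left; exact ⟨hT, h, by rwa [abs_of_nonneg h] at h1⟩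
    · right; exact ⟨-T, ⟨hT.neg, by linarith, by rwa [abs_of_nonpos h] at h1⟩, by simp⟩
  · push Not at h1
    have h2 : (0 : ℚ) < |T| := by linarith
    have h3 : 9 / (5 * |T|) ∈ S := by
      refine ⟨hT.abs.inv h2.ne', by positivity, ?_⟩
      rw [div_le_iff₀ (by positivity)]; linarith
    have h4 : 9 / (5 * (9 / (5 * |T|))) = |T| := by field_simp
    rcases le_total 0 T with h | h
    · left; right; exact ⟨_, h3, by simp only; rw [h4, abs_of_nonneg h]⟩
    · right; exact ⟨_, h3, by simp only; rw [h4, abs_of_nonpos h]; ring⟩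

/-- arbitrarily small positive good parameters -/
theorem small_good (η : ℚ) (hη : 0 < η) : ∃ τ, Good τ ∧ 0 < τ ∧ τ < η := by
  classical
  have hinf := infinite_good_bdd
  have hch : ∀ T : ℚ, ∃ N D : ℚ, Good T →
      0 < N ∧ 0 < D ∧ N ^ 2 = 1 + T ^ 2 ∧ D ^ 2 = 1 + 25 / 81 * T ^ 2 := by
    intro T
    by_cases h : Good T
    · obtain ⟨N, D, h⟩ := h
      exact ⟨N, D, fun _ => h⟩
    · exact ⟨0, 0, fun h' => absurd h' h⟩
  choose N D hND using hch
  have hmap : Set.MapsTo (fun T => ⌊T * N T / D T / η⌋) {T : ℚ | Good T ∧ 0 ≤ T ∧ T ≤ 2}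
      (Set.Icc 0 ⌊6 / η⌋) := by
    rintro T ⟨hT, h0, h2⟩
    obtain ⟨a1, a2, a3, a4⟩ := hND T hT
    refine ⟨Int.floor_nonneg.2 (by positivity), Int.floor_le_floor ?_⟩
    apply div_le_div_of_nonneg_right _ hη.le
    rw [div_le_iff₀ a2]
    have : N T ≤ 3 := by nlinarith
    have : 1 ≤ D T := by nlinarith
    nlinarith
  obtain ⟨a, ⟨ha, ha0, -⟩, b, ⟨hb, hb0, -⟩, hab, hfl⟩ :=
    hinf.exists_ne_map_eq_of_mapsTo hmap (Set.finite_Icc _ _)
  wlog hlt : b < a generalizing a b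
  · exact this b hb hb0 a ha ha0 hab.symm hfl.symm (lt_of_le_of_ne (not_lt.1 hlt) hab)
  obtain ⟨a1, a2, a3, a4⟩ := hND a ha
  obtain ⟨b1, b2, b3, b4⟩ := hND b hb
  have hfl' := Int.abs_sub_lt_one_of_floor_eq_floor hfl
  set Na := N a
  set Da := D a
  set Nb := N b
  set Db := D b
  have hden : 0 < Na * Nb - a * (-b) * Da * Db := by
    have : 0 ≤ a * b * Da * Db := by positivity
    have : 0 < Na * Nb := by positivity
    linarith
  refine ⟨_, good_add (b := -b) a3 a4 (by rw [b3]; ring) (by rw [b4]; ring) hden.ne', ?_, ?_⟩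
  · apply div_pos _ hden
    have h1 : (b * Da * Nb) ^ 2 < (a * Db * Na) ^ 2 := by
      rw [mul_pow, mul_pow, mul_pow, mul_pow, a3, a4, b3, b4]
      have : b ^ 2 < a ^ 2 := by nlinarith
      have h2 : 0 ≤ b ^ 2 := by positivity
      set x := a ^ 2
      set y := b ^ 2
      have : 0 < (x - y) * (1 + x + y + 25 / 81 * x * y) := by
        apply mul_pos (by linarith)
        have : 0 ≤ x * y := mul_nonneg (by linarith) h2
        linarith
      nlinarith
    have h2 := lt_of_pow_lt_pow_left₀ 2 (by positivity) h1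
    linarith
  · rw [div_lt_iff₀ hden]
    have h1 : a * Na / Da - b * Nb / Db < η := by
      have := (abs_lt.1 hfl').2
      rw [← sub_div, div_lt_one hη] at this
      exact this
    have h2 : a * Db * Na + -b * Da * Nb = (a * Na / Da - b * Nb / Db) * (Da * Db) := by
      field_simp; ring
    have h3 : Da ≤ Na := by nlinarith
    have h4 : Db ≤ Nb := by nlinarith
    have h5 : Da * Db ≤ Na * Nb := mul_le_mul h3 h4 b2.le a1.le
    have h6 : 0 ≤ a * b * Da * Db := by positivity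
    rw [h2]
    calc (a * Na / Da - b * Nb / Db) * (Da * Db) < η * (Da * Db) :=
          mul_lt_mul_of_pos_right h1 (by positivity)
      _ ≤ η * (Na * Nb - a * -b * Da * Db) := by
          apply mul_le_mul_of_nonneg_left _ hη.le
          linarith

/-- one small step -/
theorem good_step {R τ T : ℚ} (hτ : Good τ) (h0 : 0 < τ) (hR : 1 ≤ R) (hs : τ * R ≤ 1 / 4)
    (hT : Good T) (hT0 : 0 ≤ T) (hTR : T ≤ R) :
    ∃ T', Good T' ∧ T + τ / 4 ≤ T' ∧ T' ≤ T + 2 * τ * (1 + R ^ 2) := by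
  obtain ⟨Na, Da, a1, a2, a3, a4⟩ := hT
  obtain ⟨Nb, Db, b1, b2, b3, b4⟩ := hτ
  have h3 : Da ≤ Na := by nlinarith
  have h4 : Db ≤ Nb := by nlinarith
  have h3' : 5 / 9 * Na ≤ Da := by nlinarith
  have h4' : (1 - τ ^ 2) * Nb ≤ Db := by
    have : 1 ≤ Db := by nlinarith
    have : Nb ≤ 1 + τ ^ 2 := by nlinarith
    have hτ1 : τ ≤ 1 / 4 := by nlinarith
    have : 0 ≤ 1 - τ ^ 2 := by nlinarith
    nlinarith
  have h5 : Da * Db ≤ Na * Nb := mul_le_mul h3 h4 b2.le a1.le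
  have hTτ : T * τ ≤ 1 / 4 := by nlinarith
  have hTτ0 : 0 ≤ T * τ := by positivity
  have hNN : 0 < Na * Nb := by positivity
  have h6 : T * τ * (Da * Db) ≤ T * τ * (Na * Nb) := mul_le_mul_of_nonneg_left h5 hTτ0
  have h7 : T * τ * (Na * Nb) ≤ 1 / 4 * (Na * Nb) := mul_le_mul_of_nonneg_right hTτ hNN.le
  have h8 : 0 ≤ T * τ * (Da * Db) := by positivity
  have hden : 0 < Na * Nb - T * τ * Da * Db := by nlinarith
  refine ⟨_, good_add a3 a4 b3 b4 hden.ne', ?_, ?_⟩
  · rw [le_div_iff₀ hden]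
    have e1 : T * ((1 - τ ^ 2) * Nb) * Na ≤ T * Db * Na := by gcongr
    have e2 : τ * (5 / 9 * Na) * Nb ≤ τ * Da * Nb := by gcongr
    have e3 : (T + τ / 4) * (Na * Nb - T * τ * Da * Db) ≤ (T + τ / 4) * (Na * Nb) := by
      apply mul_le_mul_of_nonneg_left _ (by positivity)
      nlinarith
    have e4 : τ * (T * τ * (Na * Nb)) ≤ τ * (1 / 4 * (Na * Nb)) :=
      mul_le_mul_of_nonneg_left h7 h0.le
    have e5 : 0 < τ * (Na * Nb) := by positivity
    nlinarith
  · rw [div_le_iff₀ hden]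
    have e1 : T * Db * Na ≤ T * Nb * Na := by gcongr
    have e2 : τ * Da * Nb ≤ τ * Na * Nb := by gcongr
    have e3 : (T + 2 * τ * (1 + R ^ 2)) * ((1 - T * τ) * (Na * Nb)) ≤
        (T + 2 * τ * (1 + R ^ 2)) * (Na * Nb - T * τ * Da * Db) := by
      apply mul_le_mul_of_nonneg_left _ (by positivity)
      nlinarith
    have e4 : T + τ ≤ (T + 2 * τ * (1 + R ^ 2)) * (1 - T * τ) := by
      have : T ^ 2 ≤ R ^ 2 := by nlinarith
      have h9 : τ * T ^ 2 ≤ τ * R ^ 2 := mul_le_mul_of_nonneg_left this h0.le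
      have h10 : 2 * τ * (1 + R ^ 2) * (T * τ) ≤ 2 * τ * (1 + R ^ 2) * (1 / 4) :=
        mul_le_mul_of_nonneg_left hTτ (by positivity)
      have h11 : 0 ≤ τ * R ^ 2 := by positivity
      nlinarith
    have e5 := mul_le_mul_of_nonneg_right e4 hNN.le
    nlinarith

/-- good parameters are dense in the nonnegative rationals -/
theorem good_dense {x y : ℚ} (hx : 0 ≤ x) (hxy : x < y) : ∃ T, Good T ∧ x < T ∧ T < y := by
  set R := x + 1 with hR
  have hR1 : 1 ≤ R := by linarith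
  obtain ⟨τ, hτ, h0, h1⟩ := small_good (min (1 / (4 * R)) ((y - x) / (2 * (1 + R ^ 2))))
    (lt_min (by positivity) (div_pos (by linarith) (by positivity)))
  have h2 : τ * R ≤ 1 / 4 := by
    have := (lt_min_iff.1 h1).1
    rw [lt_div_iff₀ (by positivity)] at this
    linarith
  have h3 : 2 * τ * (1 + R ^ 2) < y - x := by
    have := (lt_min_iff.1 h1).2
    rw [lt_div_iff₀ (by positivity)] at this
    linarith
  by_contra hcon
  push Not at hcon
  have key : ∀ n : ℕ, ∃ T, Good T ∧ n * (τ / 4) ≤ T ∧ T ≤ x := by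
    intro n
    induction n with
    | zero => exact ⟨0, good_zero, by simp, hx⟩
    | succ n ih =>
      obtain ⟨T, hT, a, b⟩ := ih
      have : 0 ≤ (n : ℚ) * (τ / 4) := by positivity
      obtain ⟨T', hT', c, d⟩ := good_step hτ h0 hR1 h2 hT (by linarith) (by linarith)
      refine ⟨T', hT', by push_cast; linarith, ?_⟩
      by_contra h
      push Not at h
      have := hcon T' hT' h
      linarith
  obtain ⟨n, hn⟩ := exists_nat_gt (x / (τ / 4))
  obtain ⟨T, -, a, b⟩ := key n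
  rw [div_lt_iff₀ (by positivity)] at hn
  linarith

end Pool.Agent.P.MP_a62d3c_co
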