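import Pool.Agent.P.MP_a62d3c_co.Defs
import Pool.Agent.P.MP_a62d3c_co.Dense

namespace Pool.Agent.P.MP_a62d3c_co

open Finset

/-- the determinant of a triple -/
def dt (a b c : Pt) : ℝ := (b 0 - a 0) * (c 1 - a 1) - (b 1 - a 1) * (c 0 - a 0)

theorem orient_eq (a b c : Pt) : orient a b c = SignType.sign (dt a b c) := rfl

theorem dt_cyc (a b c : Pt) : dt b c a = dt a b c := by unfold dt; ring
theorem dt_swap (a b c : Pt) : dt b a c = - dt a b c := by unfold dt; ring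
theorem dt_swap' (a b c : Pt) : dt a c b = - dt a b c := by unfold dt; ring
theorem dt_self1 (a c : Pt) : dt a a c = 0 := by unfold dt; ring
theorem dt_self2 (a b : Pt) : dt a b a = 0 := by unfold dt; ring
theorem dt_self3 (a b : Pt) : dt a b b = 0 := by unfold dt; ring
theorem dt_sum (p z w v : Pt) : dt z w v = dt p w v + dt p v z + dt p z w := by unfold dt; ring

theorem ne_of_dt {a b c : Pt} (h : dt a b c ≠ 0) : a ≠ b ∧ a ≠ c ∧ b ≠ c :=
  ⟨fun e => h (by rw [e, dt_self1]), fun e => h (by rw [e, dt_self2]),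
    fun e => h (by rw [e, dt_self3])⟩

theorem GeneralPosition.dt_ne {S : Finset Pt} (h : GeneralPosition S) {a b c : Pt} (ha : a ∈ S)
    (hb : b ∈ S) (hc : c ∈ S) (h1 : a ≠ b) (h2 : a ≠ c) (h3 : b ≠ c) : dt a b c ≠ 0 := by
  have := h a ha b hb c hc h1 h2 h3
  rw [orient_eq] at this
  simpa using this

theorem mem_hull_of_comb {T : Set Pt} {n : ℕ} (z : Fin n → Pt) (c : Fin n → ℝ) (w : Pt)
    (hz : ∀ i, z i ∈ T) (hc : ∀ i, 0 ≤ c i) (hs : 0 < ∑ i, c i)
    (h0 : (∑ i, c i) * w 0 = ∑ i, c i * z i 0) (h1 : (∑ i, c i) * w 1 = ∑ i, c i * z i 1) :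
    w ∈ convexHull ℝ T := by
  have := (convex_convexHull ℝ T).centerMass_mem (t := univ) (w := c) (z := z)
    (fun i _ => hc i) hs (fun i _ => subset_convexHull ℝ T (hz i))
  convert this
  unfold Finset.centerMass
  ext i
  fin_cases i
  · simp only [Fin.zero_eta, PiLp.smul_apply, smul_eq_mul, WithLp.ofLp_sum, Finset.sum_apply,
      WithLp.ofLp_smul, Pi.smul_apply]
    rw [← h0]; field_simp
  · simp only [Fin.mk_one, PiLp.smul_apply, smul_eq_mul, WithLp.ofLp_sum, Finset.sum_apply,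
      WithLp.ofLp_smul, Pi.smul_apply]
    rw [← h1]; field_simp

theorem tri_mem {T : Set Pt} {z v u w : Pt} (hz : z ∈ T) (hv : v ∈ T) (hu : u ∈ T)
    (h1 : 0 ≤ dt w v u) (h2 : 0 ≤ dt z w u) (h3 : 0 ≤ dt z v w) (h4 : 0 < dt z v u) :
    w ∈ convexHull ℝ T := by
  refine mem_hull_of_comb ![z, v, u] ![dt w v u, dt z w u, dt z v w] w ?_ ?_ ?_ ?_ ?_
  · intro i; fin_cases i <;> simpa
  · intro i; fin_cases i <;> simpa
  · simp only [Fin.sum_univ_three, Matrix.cons_val]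
    have : dt w v u + dt z w u + dt z v w = dt z v u := by unfold dt; ring
    linarith
  · simp only [Fin.sum_univ_three, Matrix.cons_val]
    unfold dt; ring
  · simp only [Fin.sum_univ_three, Matrix.cons_val]
    unfold dt; ring

/-- from rational distances and preserved positive orientations to an integral realization -/
theorem intRealizable_of {S : Finset Pt} (hgp : GeneralPosition S) (f : Pt → Pt)
    (hinj : Set.InjOn f (S : Set Pt))
    (hpos : ∀ a ∈ S, ∀ b ∈ S, ∀ c ∈ S, 0 < dt a b c → 0 < dt (f a) (f b) (f c))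
    (hrat : ∀ a ∈ S, ∀ b ∈ S, ∃ r : ℚ, dist (f a) (f b) = r) : IntRealizable S := by
  classical
  have hch : ∀ a b : Pt, ∃ r : ℚ, a ∈ S → b ∈ S → dist (f a) (f b) = r := by
    intro a b
    by_cases h : a ∈ S ∧ b ∈ S
    · obtain ⟨r, hr⟩ := hrat a h.1 b h.2
      exact ⟨r, fun _ _ => hr⟩
    · exact ⟨0, fun h1 h2 => absurd ⟨h1, h2⟩ h⟩
  choose r hr using hch
  set N : ℕ := ∏ e ∈ S ×ˢ S, (r e.1 e.2).den with hN
  have hN0 : 0 < N := prod_pos fun e _ => (r e.1 e.2).den_pos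
  have hN' : (0 : ℝ) < N := by exact_mod_cast hN0
  refine ⟨fun a => (N : ℝ) • f a, ?_, ?_, ?_⟩
  · intro a ha b hb e
    exact hinj ha hb (smul_right_injective _ hN'.ne' e)
  · intro a ha b hb c hc
    rw [orient_eq, orient_eq]
    have e : dt ((N : ℝ) • f a) ((N : ℝ) • f b) ((N : ℝ) • f c) =
        (N : ℝ) ^ 2 * dt (f a) (f b) (f c) := by
      simp only [dt, PiLp.smul_apply, smul_eq_mul]; ring
    rw [e, sign_mul, sign_pos (by positivity : (0 : ℝ) < (N : ℝ) ^ 2), one_mul]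
    rcases lt_trichotomy (dt a b c) 0 with h | h | h
    · have := hpos b hb a ha c hc (by rw [dt_swap]; linarith)
      rw [dt_swap] at this
      rw [sign_neg h, sign_neg (by linarith)]
    · rw [h]
      by_cases h1 : a = b
      · rw [h1, dt_self1]
      by_cases h2 : a = c
      · rw [h2, dt_self2]
      by_cases h3 : b = c
      · rw [h3, dt_self3]
      exact absurd h (hgp.dt_ne ha hb hc h1 h2 h3)
    · rw [sign_pos h, sign_pos (hpos a ha b hb c hc h)]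
  · intro a ha b hb
    obtain ⟨m, hm⟩ : (r a b).den ∣ N :=
      dvd_prod_of_mem (fun e : Pt × Pt => (r e.1 e.2).den) (a := (a, b)) (mk_mem_product ha hb)
    have h0 : 0 ≤ r a b := by
      have := dist_nonneg (x := f a) (y := f b)
      rw [hr a b ha hb] at this
      exact_mod_cast this
    refine ⟨m * (r a b).num.toNat, ?_⟩
    simp only
    rw [dist_smul₀, hr a b ha hb, Real.norm_of_nonneg hN'.le, hm]
    have h1 : (((r a b).num.toNat : ℕ) : ℝ) = ((r a b).num : ℝ) := by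
      have := Int.toNat_of_nonneg (Rat.num_nonneg.2 h0)
      exact_mod_cast this
    have h2 : ((r a b).den : ℝ) * (r a b : ℝ) = ((r a b).num : ℝ) := by
      exact_mod_cast Rat.den_mul_eq_num (r a b)
    push_cast
    rw [h1, ← h2]; ring

theorem rat_dist (x y : Pt) (r : ℚ) (h : (x 0 - y 0) ^ 2 + (x 1 - y 1) ^ 2 = (r : ℝ) ^ 2) :
    ∃ t : ℚ, dist x y = t := by
  refine ⟨|r|, ?_⟩
  rw [EuclideanSpace.dist_eq, Fin.sum_univ_two, Real.dist_eq, Real.dist_eq, sq_abs, sq_abs, h,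
    Real.sqrt_sq_eq_abs]
  simp

/-- the point of the unit circle with half-angle tangent `s` -/
noncomputable def circ (s : ℚ) : Pt :=
  !₂[(1 - (s : ℝ) ^ 2) / (1 + (s : ℝ) ^ 2), 2 * (s : ℝ) / (1 + (s : ℝ) ^ 2)]

/-- a point of the horizontal axis -/
noncomputable def ax (c : ℚ) : Pt := !₂[(c : ℝ), 0]

@[simp] theorem circ0 (s : ℚ) : circ s 0 = (1 - (s : ℝ) ^ 2) / (1 + (s : ℝ) ^ 2) := rfl
@[simp] theorem circ1 (s : ℚ) : circ s 1 = 2 * (s : ℝ) / (1 + (s : ℝ) ^ 2) := rfl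
@[simp] theorem ax0 (c : ℚ) : ax c 0 = c := rfl
@[simp] theorem ax1 (c : ℚ) : ax c 1 = 0 := rfl

/-- good circle parameters -/
def CGood (s : ℚ) : Prop := ∃ u v : ℚ, u ^ 2 = 1 + s ^ 2 ∧ v ^ 2 = 25 / 81 + s ^ 2

theorem cgood_inv {T : ℚ} (h : Good T) (h0 : T ≠ 0) : CGood (1 / T) := by
  obtain ⟨N, D, -, -, h1, h2⟩ := h
  refine ⟨N / T, D / T, ?_, ?_⟩
  · field_simp; linear_combination h1
  · field_simp; linear_combination 81 * h2

theorem cgood_mul {x : ℚ} (h : Good (9 / 5 * x)) : CGood x := by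
  obtain ⟨N, D, -, -, h1, h2⟩ := h
  exact ⟨D, 5 / 9 * N, by linear_combination h2, by linear_combination 25 / 81 * h1⟩

theorem CGood.neg {x : ℚ} (h : CGood x) : CGood (-x) := by
  obtain ⟨u, v, h1, h2⟩ := h
  exact ⟨u, v, by linear_combination h1, by linear_combination h2⟩

theorem CGood.cast {s : ℚ} (h : CGood s) : ∃ u v : ℚ, (u : ℝ) ≠ 0 ∧
    (u : ℝ) ^ 2 = 1 + (s : ℝ) ^ 2 ∧ (v : ℝ) ^ 2 = 25 / 81 + (s : ℝ) ^ 2 := by
  obtain ⟨u, v, h1, h2⟩ := h
  have a : (u : ℝ) ^ 2 = 1 + (s : ℝ) ^ 2 := by exact_mod_cast h1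
  have b : (v : ℝ) ^ 2 = 25 / 81 + (s : ℝ) ^ 2 := by
    have := congrArg (fun q : ℚ => (q : ℝ)) h2
    simpa using this
  refine ⟨u, v, ?_, a, b⟩
  intro e
  rw [e] at a
  nlinarith [sq_nonneg (s : ℝ)]

theorem dist_circ {s t : ℚ} (hs : CGood s) (ht : CGood t) :
    ∃ r : ℚ, dist (circ s) (circ t) = r := by
  obtain ⟨u, -, hu, h1, -⟩ := hs.cast
  obtain ⟨u', -, hu', h2, -⟩ := ht.cast
  refine rat_dist _ _ (2 * (s - t) / (u * u')) ?_
  simp only [circ0, circ1]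
  push_cast
  rw [div_pow, mul_pow (u : ℝ), h1, h2]
  field_simp
  ring

theorem dist_circ_zero (s : ℚ) : ∃ r : ℚ, dist (circ s) (ax 0) = r := by
  refine rat_dist _ _ 1 ?_
  simp only [circ0, circ1, ax0, ax1]
  push_cast
  field_simp
  ring

theorem dist_circ_in {s : ℚ} (hs : CGood s) : ∃ r : ℚ, dist (circ s) (ax (2 / 7)) = r := by
  obtain ⟨u, v, hu, h1, h2⟩ := hs.cast
  refine rat_dist _ _ (9 / 7 * v / u) ?_
  simp only [circ0, circ1, ax0, ax1]
  push_cast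
  rw [div_pow (9 / 7 * (v : ℝ)), mul_pow (9 / 7 : ℝ), h1, h2]
  field_simp
  ring

theorem dist_circ_out {s : ℚ} (hs : CGood s) : ∃ r : ℚ, dist (circ s) (ax (7 / 2)) = r := by
  obtain ⟨u, v, hu, h1, h2⟩ := hs.cast
  refine rat_dist _ _ (9 / 2 * v / u) ?_
  simp only [circ0, circ1, ax0, ax1]
  push_cast
  rw [div_pow (9 / 2 * (v : ℝ)), mul_pow (9 / 2 : ℝ), h1, h2]
  field_simp
  ring

theorem dist_ax (c d : ℚ) : ∃ r : ℚ, dist (ax c) (ax d) = r :=
  rat_dist _ _ (c - d) (by simp)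

theorem dt_zero_circ (s t : ℚ) : dt (ax 0) (circ s) (circ t) =
    2 * (((t - s) * (1 + s * t) : ℚ) : ℝ) / ((1 + (s : ℝ) ^ 2) * (1 + (t : ℝ) ^ 2)) := by
  simp only [dt, circ0, circ1, ax0, ax1]
  push_cast
  field_simp
  ring

theorem dt_in_circ (s t : ℚ) : dt (ax (2 / 7)) (circ s) (circ t) =
    18 / 7 * (((t - s) * (5 / 9 + s * t) : ℚ) : ℝ) /
      ((1 + (s : ℝ) ^ 2) * (1 + (t : ℝ) ^ 2)) := by
  simp only [dt, circ0, circ1, ax0, ax1]
  push_cast
  field_simp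
  ring

theorem dt_out_circ (s t : ℚ) : dt (ax (7 / 2)) (circ s) (circ t) =
    9 * (((t - s) * (s * t - 5 / 9) : ℚ) : ℝ) /
      ((1 + (s : ℝ) ^ 2) * (1 + (t : ℝ) ^ 2)) := by
  simp only [dt, circ0, circ1, ax0, ax1]
  push_cast
  field_simp
  ring

theorem dt_circ (s t u : ℚ) : dt (circ s) (circ t) (circ u) =
    4 * (((t - s) * (u - t) * (u - s) : ℚ) : ℝ) /
      ((1 + (s : ℝ) ^ 2) * (1 + (t : ℝ) ^ 2) * (1 + (u : ℝ) ^ 2)) := by
  simp only [dt, circ0, circ1]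
  push_cast
  field_simp
  ring

theorem maj_circ (s t u : ℚ) (h1 : 0 < dt (ax 0) (circ t) (circ u))
    (h2 : 0 < dt (ax 0) (circ s) (circ t)) : 0 < dt (circ s) (circ t) (circ u) := by
  have unit : ∀ s : ℚ, circ s 0 ^ 2 + circ s 1 ^ 2 = 1 := by
    intro s
    simp only [circ0, circ1]
    field_simp
    ring
  have a := unit s
  have b := unit t
  have c := unit u
  simp only [dt, ax0, ax1, Rat.cast_zero, sub_zero] at h1 h2 ⊢
  generalize circ s 0 = z0 at *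
  generalize circ s 1 = z1 at *
  generalize circ t 0 = w0 at *
  generalize circ t 1 = w1 at *
  generalize circ u 0 = v0 at *
  generalize circ u 1 = v1 at *
  have e : (w0 - z0) * (v1 - z1) - (w1 - z1) * (v0 - z0) =
      (w0 * v1 - w1 * v0) * (1 - (z0 * w0 + z1 * w1)) +
      (z0 * w1 - z1 * w0) * (1 - (v0 * w0 + v1 * w1)) := by
    linear_combination (-(v0 * z1 - v1 * z0)) * b
  have f1 : z0 * w0 + z1 * w1 ≤ 1 := by nlinarith [sq_nonneg (z0 - w0), sq_nonneg (z1 - w1)]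
  have f2 : v0 * w0 + v1 * w1 < 1 := by
    have : (v0 * w0 + v1 * w1) ^ 2 + (w0 * v1 - w1 * v0) ^ 2 = 1 := by
      linear_combination (v0 ^ 2 + v1 ^ 2) * b + c
    nlinarith
  rw [e]
  have := mul_nonneg h1.le (sub_nonneg.2 f1)
  have := mul_pos h2 (sub_pos.2 f2)
  linarith

end Pool.Agent.P.MP_a62d3c_co
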