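import Mathlib

namespace Pool.Agent.P.MP_a62d3c_co

open Finset

theorem pick (G : ℚ → Prop) (hG : ∀ x y, 0 ≤ x → x < y → ∃ t, G t ∧ x < t ∧ t < y)
    (A B : Finset ℚ) (hB : ∀ β ∈ B, 0 < β) (hAB : ∀ α ∈ A, ∀ β ∈ B, α < β) :
    ∃ t, G t ∧ 0 < t ∧ (∀ α ∈ A, α < t) ∧ ∀ β ∈ B, t < β := by
  classical
  have hne : (insert 0 A).Nonempty := insert_nonempty _ _
  set lo := (insert 0 A).max' hne with hlo
  have h0 : 0 ≤ lo := le_max' _ _ (mem_insert_self _ _)
  have hA : ∀ α ∈ A, α ≤ lo := fun α h => le_max' _ _ (mem_insert_of_mem h)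
  have hlt : ∀ β ∈ B, lo < β := by
    intro β hβ
    rcases mem_insert.1 (max'_mem _ hne) with h | h
    · rw [hlo, h]; exact hB β hβ
    · exact hAB _ h β hβ
  have hne' : (insert (lo + 1) B).Nonempty := insert_nonempty _ _
  have : lo < (insert (lo + 1) B).min' hne' := by
    rcases mem_insert.1 (min'_mem _ hne') with h | h
    · rw [h]; linarith
    · exact hlt _ h
  obtain ⟨t, ht, h1, h2⟩ := hG _ _ h0 this
  exact ⟨t, ht, by linarith, fun α h => (hA α h).trans_lt h1,
    fun β h => h2.trans_le (min'_le _ _ (mem_insert_of_mem h))⟩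

theorem greedy {ι : Type} (a b : ι → ℝ) (up : ι → Prop) (lam : ℚ) (hlam : 1 < lam)
    (G : ι → ℚ → Prop) (hG : ∀ i x y, 0 ≤ x → x < y → ∃ t, G i t ∧ x < t ∧ t < y)
    (S : Finset ι)
    (hchain : ∀ i ∈ S, ∀ j ∈ S, (up i ↔ up j) → a i < a j → b i < b j)
    (hup : ∀ i ∈ S, up i → b i < a i) (hlo : ∀ j ∈ S, ¬ up j → a j < b j)
    (hinj : ∀ i ∈ S, ∀ j ∈ S, a i = a j → i = j) :
    ∃ x : ι → ℚ, (∀ i ∈ S, 0 < x i ∧ G i (x i)) ∧
      (∀ i ∈ S, ∀ j ∈ S, a i < a j → x i < x j) ∧
      (∀ i ∈ S, ∀ j ∈ S, (up i ↔ up j) → b i < b j → x i < x j) ∧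
      (∀ i ∈ S, ∀ j ∈ S, up i → ¬ up j → b i < b j → x i < lam * x j) ∧
      (∀ i ∈ S, ∀ j ∈ S, ¬ up i → up j → b i < b j → lam * x i < x j) := by
  classical
  have hrev : ∀ i ∈ S, ∀ j ∈ S, (up i ↔ up j) → b i < b j → a i < a j := by
    intro i hi j hj hij h
    rcases lt_trichotomy (a i) (a j) with h1 | h1 | h1
    · exact h1
    · rw [hinj i hi j hj h1] at h; exact absurd h (lt_irrefl _)
    · exact absurd (hchain j hj i hi hij.symm h1) (not_lt.2 h.le)
  have key : ∀ T : Finset ι, T ⊆ S → ∃ x : ι → ℚ, (∀ k ∈ T, 0 < x k ∧ G k (x k)) ∧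
      (∀ k ∈ T, ∀ l ∈ T, a k < a l → x k < x l) ∧
      (∀ j ∈ T, ¬ up j → ∀ k ∈ T, ∀ i ∈ S, up i → b i < b j → a k ≤ a i → x k < lam * x j) ∧
      (∀ j ∈ T, ¬ up j → ∀ i ∈ T, up i → b j < b i → lam * x j < x i) := by
    intro T
    induction T using Finset.induction_on_max_value a with
    | empty => intro _; exact ⟨fun _ => 0, by simp, by simp, by simp, by simp⟩
    | insert m T hm hmax ih =>
      intro hsub
      have hmS : m ∈ S := hsub (mem_insert_self _ _)
      have hTS : T ⊆ S := fun k hk => hsub (mem_insert_of_mem hk)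
      obtain ⟨x, P0, P1, P2, P3⟩ := ih hTS
      have hlt : ∀ k ∈ T, a k < a m := fun k hk =>
        lt_of_le_of_ne (hmax k hk) (fun e => hm (hinj k (hTS hk) m hmS e ▸ hk))
      obtain ⟨t, ht, ht0, htA, htB⟩ := pick (G m) (hG m)
        (T.image x ∪ (T.filter (fun j => ¬ up j ∧ up m ∧ b j < b m)).image (fun j => lam * x j))
        ((T.filter (fun j => ¬ up j ∧ ∃ i ∈ S, up i ∧ b i < b j ∧ a m ≤ a i)).image
          (fun j => lam * x j))
        (by
          intro β hβ
          obtain ⟨j, hj, rfl⟩ := mem_image.1 hβ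
          exact mul_pos (by linarith) (P0 j (mem_filter.1 hj).1).1)
        (by
          intro α hα β hβ
          obtain ⟨j, hj, rfl⟩ := mem_image.1 hβ
          obtain ⟨hjT, hju, i, hiS, hiu, hib, hia⟩ := mem_filter.1 hj
          rcases mem_union.1 hα with h | h
          · obtain ⟨k, hk, rfl⟩ := mem_image.1 h
            exact P2 j hjT hju k hk i hiS hiu hib ((hmax k hk).trans hia)
          · obtain ⟨k, hk, rfl⟩ := mem_image.1 h
            obtain ⟨hkT, hku, hmu, hkb⟩ := mem_filter.1 hk
            have h1 : b m ≤ b i := by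
              rcases hia.eq_or_lt with e | e
              · rw [hinj m hmS i hiS e]
              · exact (hchain m hmS i hiS (by tauto) e).le
            have h2 := hrev k (hTS hkT) j (hTS hjT) (by tauto) (by linarith)
            exact mul_lt_mul_of_pos_left (P1 k hkT j hjT h2) (by linarith))
      have hx : ∀ k ∈ T, Function.update x m t k = x k := fun k hk =>
        Function.update_of_ne (fun e : k = m => hm (e ▸ hk)) _ _
      have hxt : ∀ k ∈ T, x k < t := fun k hk =>
        htA _ (mem_union_left _ (mem_image_of_mem _ hk))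
      have hlt' : t < lam * t := by nlinarith
      refine ⟨Function.update x m t, ?_, ?_, ?_, ?_⟩
      · intro k hk
        rcases mem_insert.1 hk with rfl | hk
        · simp [ht, ht0]
        · rw [hx k hk]; exact P0 k hk
      · intro k hk l hl h
        rw [mem_insert] at hk hl
        rcases hk with rfl | hk <;> rcases hl with rfl | hl
        · exact absurd h (lt_irrefl _)
        · exact absurd h (not_lt.2 (hmax l hl))
        · rw [hx k hk, Function.update_self]; exact hxt k hk
        · rw [hx k hk, hx l hl]; exact P1 k hk l hl h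
      · intro j hj hju k hk i hi hiu hib hia
        rw [mem_insert] at hj hk
        rcases hj with rfl | hj <;> rcases hk with rfl | hk
        · rw [Function.update_self]; exact hlt'
        · rw [hx k hk, Function.update_self]; exact (hxt k hk).trans hlt'
        · rw [hx j hj, Function.update_self]
          exact htB _ (mem_image.2 ⟨j, mem_filter.2 ⟨hj, hju, i, hi, hiu, hib, hia⟩, rfl⟩)
        · rw [hx j hj, hx k hk]; exact P2 j hj hju k hk i hi hiu hib hia
      · intro j hj hju i hi hiu hb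
        rw [mem_insert] at hj hi
        rcases hj with rfl | hj <;> rcases hi with rfl | hi
        · exact absurd hiu hju
        · have := hup i (hTS hi) hiu
          have := hlo j hmS hju
          have := hlt i hi
          linarith
        · rw [hx j hj, Function.update_self]
          exact htA _ (mem_union_right _
            (mem_image.2 ⟨j, mem_filter.2 ⟨hj, hju, hiu, hb⟩, rfl⟩))
        · rw [hx j hj, hx i hi]; exact P3 j hj hju i hi hiu hb
  obtain ⟨x, P0, P1, P2, P3⟩ := key S Subset.rfl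
  refine ⟨x, P0, P1, fun i hi j hj h1 h2 => P1 i hi j hj (hrev i hi j hj h1 h2), ?_, ?_⟩
  · intro i hi j hj h1 h2 h3
    exact P2 j hj h2 i hi i hi h1 h3 le_rfl
  · intro i hi j hj h1 h2 h3
    exact P3 i hi h1 j hj h2 h3

end Pool.Agent.P.MP_a62d3c_co
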