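import Pool.Agent.P.MP_a62d3c_co.Two

namespace Pool.Agent.P.MP_a62d3c_co

open Finset

theorem comb_id (r z w v : Pt) (i : Fin 2) :
    dt r w v * z i + dt r z w * v i = (dt r w v + dt r z w) * w i + dt z w v * (r i - w i) := by
  fin_cases i <;> simp only [Fin.zero_eta, Fin.mk_one, dt] <;> ring

theorem outer_core {S : Finset Pt} (hgp : GeneralPosition S) {r : Pt} (hr : r ∈ S)
    (hout : r ∉ convexHull ℝ ((S : Set Pt) \ {r}))
    (hv : ∀ x ∈ S, x ≠ r → x ∉ convexHull ℝ ((S : Set Pt) \ {x, r})) :
    IntRealizable S := by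
  classical
  let C := S.erase r
  have hC : ∀ z, z ∈ C ↔ z ∈ S ∧ z ≠ r := by
    intro z; simp only [C, mem_erase]; tauto
  have trans : ∀ z ∈ C, ∀ w ∈ C, ∀ v ∈ C, 0 < dt r z w → 0 < dt r w v → 0 < dt r z v := by
    intro z hz w hw v hv' h1 h2
    by_contra hcon
    push Not at hcon
    refine hout (tri_mem (z := z) (v := w) (u := v) ((hC z).1 hz) ((hC w).1 hw) ((hC v).1 hv')
      h2.le ?_ ?_ ?_)
    · rw [dt_swap]; linarith
    · rw [dt_cyc]; exact h1.le
    · rw [dt_sum r, dt_swap' r z v]; linarith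
  have tot : ∀ z ∈ C, ∀ w ∈ C, z ≠ w → 0 < dt r z w ∨ 0 < dt r w z := by
    intro z hz w hw hne
    have := hgp.dt_ne hr ((hC z).1 hz).1 ((hC w).1 hw).1 ((hC z).1 hz).2.symm
      ((hC w).1 hw).2.symm hne
    rcases lt_or_gt_of_ne this with h | h
    · right; rw [dt_swap']; linarith
    · left; exact h
  let rank : Pt → ℕ := fun z => (C.filter (fun u => 0 < dt r u z)).card
  have hrank : ∀ z ∈ C, ∀ w ∈ C, 0 < dt r z w → rank z < rank w := by
    intro z hz w hw h
    apply card_lt_card
    refine ⟨fun u hu => ?_, fun hsub => ?_⟩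
    · obtain ⟨h1, h2⟩ := mem_filter.1 hu
      exact mem_filter.2 ⟨h1, trans u h1 z hz w hw h2 h⟩
    · have := (mem_filter.1 (hsub (mem_filter.2 ⟨hz, h⟩))).2
      rw [dt_self3] at this
      exact lt_irrefl _ this
  have hch : ∀ n : ℕ, ∃ T : ℚ, Good T ∧ 1 / ((n : ℚ) + 2) < T ∧ T < 1 / ((n : ℚ) + 1) :=
    fun n => good_dense (by positivity)
      (one_div_lt_one_div_of_lt (by positivity) (by linarith))
  choose T hT hT1 hT2 using hch
  have hT0 : ∀ n, 0 < T n := fun n => lt_trans (by positivity) (hT1 n)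
  have hT3 : ∀ n, T n < 1 := fun n => (hT2 n).trans_le
    (by rw [div_le_one (by positivity)]; linarith [(Nat.cast_nonneg n : (0 : ℚ) ≤ n)])
  have hTanti : ∀ m n, m < n → T n < T m := by
    intro m n h
    have : (m : ℚ) + 1 ≤ n := by exact_mod_cast h
    calc T n < 1 / ((n : ℚ) + 1) := hT2 n
      _ ≤ 1 / ((m : ℚ) + 2) := one_div_le_one_div_of_le (by positivity) (by linarith)
      _ < T m := hT1 m
  let near : Pt → Prop := fun w => ∃ z ∈ C, ∃ v ∈ C, 0 < dt r z w ∧ 0 < dt r w v ∧ dt z w v < 0
  let s : Pt → ℚ := fun z => if near z then 5 / 9 * T (rank z) else 1 / T (rank z)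
  let f : Pt → Pt := fun z => if z = r then ax (7 / 2) else circ (s z)
  have fr : f r = ax (7 / 2) := by simp [f]
  have fz : ∀ z ∈ C, f z = circ (s z) := fun z hz => by simp [f, ((hC z).1 hz).2]
  have hs : ∀ z, CGood (s z) := by
    intro z
    by_cases h : near z
    · simp only [s, h, if_true]
      apply cgood_mul
      rw [show 9 / 5 * (5 / 9 * T (rank z)) = T (rank z) by ring]
      exact hT _
    · simp only [s, h, if_false]
      exact cgood_inv (hT _) (hT0 _).ne'
  have sn : ∀ z, near z → s z = 5 / 9 * T (rank z) := fun z h => by simp only [s, h, if_true]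
  have sf : ∀ z, ¬ near z → s z = 1 / T (rank z) := fun z h => by simp only [s, h, if_false]
  have big : ∀ n, 1 < 1 / T n := fun n => by
    rw [lt_div_iff₀ (hT0 n)]; linarith [hT3 n]
  have H2 : ∀ z ∈ C, ∀ w ∈ C, 0 < dt r z w → 0 < dt (ax (7 / 2)) (circ (s z)) (circ (s w)) := by
    intro z hz w hw h
    rw [dt_out_circ]
    have h1 := hTanti _ _ (hrank z hz w hw h)
    have a0 := hT0 (rank z)
    have b0 := hT0 (rank w)
    have a1 := hT3 (rank z)
    have b1 := hT3 (rank w)
    have a2 := big (rank z)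
    have b2 := big (rank w)
    have : 0 < (s w - s z) * (s z * s w - 5 / 9) := by
      by_cases h3 : near z <;> by_cases h4 : near w
      · rw [sn z h3, sn w h4]
        exact mul_pos_of_neg_of_neg (by linarith) (by nlinarith)
      · rw [sn z h3, sf w h4]
        refine mul_pos (by linarith) ?_
        have : 5 / 9 * T (rank z) * (1 / T (rank w)) - 5 / 9 =
          5 / 9 * (T (rank z) - T (rank w)) / T (rank w) := by field_simp
        rw [this]
        exact div_pos (by linarith) b0
      · rw [sf z h3, sn w h4]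
        refine mul_pos_of_neg_of_neg (by linarith) ?_
        have : 1 / T (rank z) * (5 / 9 * T (rank w)) - 5 / 9 =
          5 / 9 * (T (rank w) - T (rank z)) / T (rank z) := by field_simp
        rw [this]
        exact div_neg_of_neg_of_pos (by linarith) a0
      · rw [sf z h3, sf w h4]
        exact mul_pos (sub_pos.2 (one_div_lt_one_div_of_lt b0 h1)) (by nlinarith)
    have : (0 : ℝ) < (((s w - s z) * (s z * s w - 5 / 9) : ℚ) : ℝ) := by exact_mod_cast this
    positivity
  have nearneg : ∀ z ∈ C, ∀ w ∈ C, ∀ v ∈ C, 0 < dt r z w → 0 < dt r w v → near w →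
      dt z w v ≤ 0 := by
    rintro z hz w hw v hv' h1 h2 ⟨z', hz', v', hv'', h3, h4, h5⟩
    by_contra hcon
    push Not at hcon
    have mem : ∀ y ∈ C, y ≠ w → y ∈ (S : Set Pt) \ {w, r} := by
      intro y hy h
      refine ⟨((hC y).1 hy).1, ?_⟩
      simp [h, ((hC y).1 hy).2]
    refine hv w ((hC w).1 hw).1 ((hC w).1 hw).2 (mem_hull_of_comb ![z, v, z', v']
      ![-dt z' w v' * dt r w v, -dt z' w v' * dt r z w, dt z w v * dt r w v', dt z w v * dt r z' w]
      w ?_ ?_ ?_ ?_ ?_)
    · intro i
      fin_cases i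
      · exact mem z hz (ne_of_dt h1.ne').2.2
      · exact mem v hv' (ne_of_dt h2.ne').2.2.symm
      · exact mem z' hz' (ne_of_dt h3.ne').2.2
      · exact mem v' hv'' (ne_of_dt h4.ne').2.2.symm
    · intro i
      fin_cases i
      · exact mul_nonneg (by linarith) h2.le
      · exact mul_nonneg (by linarith) h1.le
      · exact mul_nonneg hcon.le h4.le
      · exact mul_nonneg hcon.le h3.le
    · simp only [Fin.sum_univ_four, Matrix.cons_val]
      have := mul_pos (neg_pos.2 h5) h2
      have := mul_pos (neg_pos.2 h5) h1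
      have := mul_pos hcon h4
      have := mul_pos hcon h3
      linarith
    · simp only [Fin.sum_univ_four, Matrix.cons_val]
      linear_combination (dt z' w v') * comb_id r z w v 0 - (dt z w v) * comb_id r z' w v' 0
    · simp only [Fin.sum_univ_four, Matrix.cons_val]
      linear_combination (dt z' w v') * comb_id r z w v 1 - (dt z w v) * comb_id r z' w v' 1
  have Srt : ∀ z ∈ C, ∀ w ∈ C, ∀ v ∈ C, 0 < dt r z w → 0 < dt r w v →
      (0 < dt z w v → 0 < dt (circ (s z)) (circ (s w)) (circ (s v))) ∧
      (dt z w v < 0 → dt (circ (s z)) (circ (s w)) (circ (s v)) < 0) := by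
    intro z hz w hw v hv' h1 h2
    have t1 := hTanti _ _ (hrank z hz w hw h1)
    have t2 := hTanti _ _ (hrank w hw v hv' h2)
    have a0 := hT0 (rank z)
    have b0 := hT0 (rank w)
    have c0 := hT0 (rank v)
    have a1 := hT3 (rank z)
    have a2 := big (rank z)
    have i1 := one_div_lt_one_div_of_lt b0 t1
    have i2 := one_div_lt_one_div_of_lt c0 t2
    rw [dt_circ]
    constructor
    · intro h
      have hw' : ¬ near w := fun hn => absurd h (not_lt.2 (nearneg z hz w hw v hv' h1 h2 hn))
      have : 0 < (s w - s z) * (s v - s w) * (s v - s z) := by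
        rw [sf w hw']
        by_cases h3 : near z <;> by_cases h4 : near v
        · rw [sn z h3, sn v h4, mul_assoc]
          exact mul_pos (by linarith) (mul_pos_of_neg_of_neg (by linarith) (by linarith))
        · rw [sn z h3, sf v h4]
          exact mul_pos (mul_pos (by linarith) (by linarith)) (by linarith)
        · rw [sf z h3, sn v h4, mul_assoc]
          exact mul_pos (by linarith) (mul_pos_of_neg_of_neg (by linarith) (by linarith))
        · rw [sf z h3, sf v h4]
          exact mul_pos (mul_pos (by linarith) (by linarith)) (by linarith)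
      have : (0 : ℝ) < (((s w - s z) * (s v - s w) * (s v - s z) : ℚ) : ℝ) := by
        exact_mod_cast this
      positivity
    · intro h
      have hw' : near w := ⟨z, hz, v, hv', h1, h2, h⟩
      have : (s w - s z) * (s v - s w) * (s v - s z) < 0 := by
        rw [sn w hw']
        by_cases h3 : near z <;> by_cases h4 : near v
        · rw [sn z h3, sn v h4]
          exact mul_neg_of_pos_of_neg (mul_pos_of_neg_of_neg (by linarith) (by linarith))
            (by linarith)
        · rw [sn z h3, sf v h4, mul_assoc]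
          exact mul_neg_of_neg_of_pos (by linarith) (mul_pos (by linarith) (by linarith))
        · rw [sf z h3, sn v h4]
          exact mul_neg_of_pos_of_neg (mul_pos_of_neg_of_neg (by linarith) (by linarith))
            (by linarith)
        · rw [sf z h3, sf v h4, mul_assoc]
          exact mul_neg_of_neg_of_pos (by linarith) (mul_pos (by linarith) (by linarith))
      have : (((s w - s z) * (s v - s w) * (s v - s z) : ℚ) : ℝ) < 0 := by
        exact_mod_cast this
      exact div_neg_of_neg_of_pos (by linarith) (by positivity)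
  have H3 : ∀ a ∈ C, ∀ b ∈ C, ∀ c ∈ C, 0 < dt a b c →
      0 < dt (circ (s a)) (circ (s b)) (circ (s c)) := by
    intro a ha b hb c hc h
    obtain ⟨n1, n2, n3⟩ := ne_of_dt h.ne'
    have p1 : ∀ a b c : Pt, dt c b a = - dt a b c := fun a b c => by unfold dt; ring
    rcases tot a ha b hb n1 with α | α <;> rcases tot b hb c hc n3 with β | β <;>
      rcases tot a ha c hc n2 with γ | γ
    · exact (Srt a ha b hb c hc α β).1 h
    · exact (Srt a ha b hb c hc α β).1 h
    · have := (Srt a ha c hc b hb γ β).2 (by rw [dt_swap']; linarith)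
      rw [dt_swap'] at this; linarith
    · have := (Srt c hc a ha b hb γ α).1 (by rw [← dt_cyc]; exact h)
      rw [← dt_cyc] at this; exact this
    · have := (Srt b hb a ha c hc α γ).2 (by rw [dt_swap]; linarith)
      rw [dt_swap] at this; linarith
    · have := (Srt b hb c hc a ha β γ).1 (by rw [dt_cyc]; exact h)
      rw [dt_cyc] at this; exact this
    · have := (Srt c hc b hb a ha β α).2 (by rw [p1]; linarith)
      rw [p1] at this; linarith
    · have := (Srt c hc b hb a ha β α).2 (by rw [p1]; linarith)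
      rw [p1] at this; linarith
  have Pr : ∀ b ∈ S, ∀ c ∈ S, 0 < dt r b c → 0 < dt (f r) (f b) (f c) := by
    intro b hb c hc h
    obtain ⟨n1, n2, -⟩ := ne_of_dt h.ne'
    have hb' := (hC b).2 ⟨hb, n1.symm⟩
    have hc' := (hC c).2 ⟨hc, n2.symm⟩
    rw [fr, fz b hb', fz c hc']
    exact H2 b hb' c hc' h
  have hpos : ∀ a ∈ S, ∀ b ∈ S, ∀ c ∈ S, 0 < dt a b c → 0 < dt (f a) (f b) (f c) := by
    intro a ha b hb c hc h
    by_cases a1 : a = r
    · rw [a1] at h ⊢; exact Pr b hb c hc h
    by_cases b1 : b = r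
    · rw [b1, ← dt_cyc] at h ⊢; exact Pr c hc a ha h
    by_cases c1 : c = r
    · rw [c1, ← dt_cyc, ← dt_cyc] at h ⊢; exact Pr a ha b hb h
    have ha' := (hC a).2 ⟨ha, a1⟩
    have hb' := (hC b).2 ⟨hb, b1⟩
    have hc' := (hC c).2 ⟨hc, c1⟩
    rw [fz a ha', fz b hb', fz c hc']
    exact H3 a ha' b hb' c hc' h
  have hne : ∀ t : ℚ, circ t ≠ ax (7 / 2) := by
    intro t e
    have := congrArg (fun y : Pt => y 0) e
    simp only [circ0, ax0] at this
    rw [div_eq_iff (by positivity)] at this
    push_cast at this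
    nlinarith [sq_nonneg (t : ℝ)]
  refine intRealizable_of hgp f ?_ hpos ?_
  · intro a ha b hb e
    by_contra hab
    by_cases a1 : a = r
    · have hb' := (hC b).2 ⟨hb, fun e => hab (a1.trans e.symm)⟩
      rw [a1, fr, fz b hb'] at e
      exact hne _ e.symm
    have ha' := (hC a).2 ⟨ha, a1⟩
    by_cases b1 : b = r
    · rw [b1, fr, fz a ha'] at e
      exact hne _ e
    have hb' := (hC b).2 ⟨hb, b1⟩
    rcases tot a ha' b hb' hab with h | h
    · exact (ne_of_dt (Pr a ha b hb h).ne').2.2 e
    · exact (ne_of_dt (Pr b hb a ha h).ne').2.2 e.symm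
  · intro a ha b hb
    by_cases a1 : a = r <;> by_cases b1 : b = r
    · rw [a1, b1, fr]; exact dist_ax _ _
    · rw [a1, fr, fz b ((hC b).2 ⟨hb, b1⟩), dist_comm]; exact dist_circ_out (hs b)
    · rw [b1, fr, fz a ((hC a).2 ⟨ha, a1⟩)]; exact dist_circ_out (hs a)
    · rw [fz a ((hC a).2 ⟨ha, a1⟩), fz b ((hC b).2 ⟨hb, b1⟩)]; exact dist_circ (hs a) (hs b)

theorem one_extra {S : Finset Pt} (hgp : GeneralPosition S) (r : Pt)
    (hv : ∀ x ∈ S, x ≠ r → x ∉ convexHull ℝ ((S : Set Pt) \ {x, r})) :
    IntRealizable S := by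
  classical
  by_cases hr : r ∈ S ∧ r ∉ convexHull ℝ ((S : Set Pt) \ {r})
  · exact outer_core hgp hr.1 hr.2 hv
  apply two_interior hgp
  refine le_trans (Set.ncard_le_ncard (t := {r}) ?_ (Set.finite_singleton r)) (by simp)
  rintro x ⟨hx, hx'⟩
  by_contra hxr
  have hxr : x ≠ r := hxr
  by_cases hrS : r ∈ S
  swap
  · apply hv x hx hxr
    rwa [show (S : Set Pt) \ {x, r} = (S : Set Pt) \ {x} by
      ext u; simp only [Set.mem_sdiff, Set.mem_singleton_iff, Set.mem_insert_iff, mem_coe]
      constructor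
      · tauto
      · rintro ⟨h1, h2⟩
        exact ⟨h1, fun h => h.elim h2 (fun e => hrS (e ▸ h1))⟩]
  have hr' : r ∈ convexHull ℝ ((S : Set Pt) \ {r}) := by
    by_contra h; exact hr ⟨hrS, h⟩
  set D : Set Pt := (S : Set Pt) \ {x, r} with hD
  have e1 : (S : Set Pt) \ {x} = insert r D := by
    ext u
    simp only [hD, Set.mem_sdiff, Set.mem_singleton_iff, Set.mem_insert_iff, mem_coe]
    constructor
    · tauto
    · rintro (rfl | h)
      · exact ⟨hrS, hxr.symm⟩
      · tauto
  have e2 : (S : Set Pt) \ {r} = insert x D := by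
    ext u
    simp only [hD, Set.mem_sdiff, Set.mem_singleton_iff, Set.mem_insert_iff, mem_coe]
    constructor
    · tauto
    · rintro (rfl | h)
      · exact ⟨hx, hxr⟩
      · tauto
  rw [e1] at hx'
  rw [e2] at hr'
  rcases D.eq_empty_or_nonempty with hE | hE
  · rw [hE] at hx'
    simp only [insert_empty_eq, convexHull_singleton, Set.mem_singleton_iff] at hx'
    exact hxr hx'
  rw [convexHull_insert hE, mem_convexJoin] at hx' hr'
  obtain ⟨_, rfl, y, hy, l, l', hl, hl', hs, ex⟩ := hx'
  obtain ⟨_, rfl, y', hy', m, m', hm, hm', hs', er⟩ := hr'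
  apply hv _ hx hxr
  have hpos : 0 < 1 - l * m := by
    by_contra h
    have h1 : l = 1 := by nlinarith
    have h2 : l' = 0 := by linarith
    rw [h1, h2, one_smul, zero_smul, add_zero] at ex
    exact hxr ex.symm
  have := (convex_convexHull ℝ D) hy hy' (a := l' / (1 - l * m)) (b := l * m' / (1 - l * m))
    (by positivity) (by positivity) (by
      rw [← add_div, div_eq_one_iff_eq hpos.ne']
      linear_combination hs + l * hs')
  convert this using 1
  ext i
  have a := congrArg (fun y : Pt => y i) ex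
  have b := congrArg (fun y : Pt => y i) er
  simp only [PiLp.add_apply, PiLp.smul_apply, smul_eq_mul] at a b ⊢
  field_simp
  linear_combination (-1) * a - l * b

end Pool.Agent.P.MP_a62d3c_co
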