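import Pool.Agent.P.MP_a62d3c_co.Geom
import Pool.Agent.P.MP_a62d3c_co.Greedy

namespace Pool.Agent.P.MP_a62d3c_co

open Finset

theorem two_core {S : Finset Pt} (hgp : GeneralPosition S) {p q : Pt} (hp : p ∈ S) (hq : q ∈ S)
    (hpq : p ≠ q)
    (hv : ∀ x ∈ S, x ≠ p → x ≠ q → x ∉ convexHull ℝ ((S : Set Pt) \ {x})) :
    IntRealizable S := by
  classical
  set L : ℝ := (q 0 - p 0) ^ 2 + (q 1 - p 1) ^ 2 with hL
  have hL0 : 0 < L := by
    by_contra h
    apply hpq
    have h0 : q 0 - p 0 = 0 := by nlinarith [sq_nonneg (q 0 - p 0), sq_nonneg (q 1 - p 1)]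
    have h1 : q 1 - p 1 = 0 := by nlinarith [sq_nonneg (q 0 - p 0), sq_nonneg (q 1 - p 1)]
    ext i
    fin_cases i
    · simp only [Fin.zero_eta]; linarith
    · simp only [Fin.mk_one]; linarith
  let X : Pt → ℝ := fun z => (q 0 - p 0) * (z 0 - p 0) + (q 1 - p 1) * (z 1 - p 1)
  let a : Pt → ℝ := fun z => X z / dt p q z
  let b : Pt → ℝ := fun z => (X z - L) / dt p q z
  let up : Pt → Prop := fun z => 0 < dt p q z
  let R := (S.erase p).erase q
  have hR : ∀ z, z ∈ R ↔ z ∈ S ∧ z ≠ p ∧ z ≠ q := by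
    intro z; simp only [R, mem_erase]; tauto
  have hY : ∀ z ∈ R, dt p q z ≠ 0 := fun z hz =>
    hgp.dt_ne hp hq ((hR z).1 hz).1 hpq ((hR z).1 hz).2.1.symm ((hR z).1 hz).2.2.symm
  have hY' : ∀ z ∈ R, ¬ up z → dt p q z < 0 := fun z hz h =>
    lt_of_le_of_ne (not_lt.1 h) (hY z hz)
  have ha : ∀ z ∈ R, ∀ w ∈ R, dt p z w * L = dt p q z * dt p q w * (a z - a w) := by
    intro z hz w hw
    have h1 := hY z hz
    have h2 := hY w hw
    simp only [a]
    field_simp
    simp only [X, hL, dt]; ring
  have hb : ∀ z ∈ R, ∀ w ∈ R, dt q z w * L = dt p q z * dt p q w * (b z - b w) := by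
    intro z hz w hw
    have h1 := hY z hz
    have h2 := hY w hw
    simp only [b]
    field_simp
    simp only [X, hL, dt]; ring
  have hYY : ∀ z ∈ R, ∀ w ∈ R, (up z ↔ up w) → 0 < dt p q z * dt p q w := by
    intro z hz w hw h
    by_cases h1 : up z
    · exact mul_pos h1 (h.1 h1)
    · exact mul_pos_of_neg_of_neg (hY' z hz h1) (hY' w hw (fun e => h1 (h.2 e)))
  have hYY' : ∀ z ∈ R, ∀ w ∈ R, ¬ (up z ↔ up w) → dt p q z * dt p q w < 0 := by
    intro z hz w hw h
    by_cases h1 : up z
    · exact mul_neg_of_pos_of_neg h1 (hY' w hw (by tauto))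
    · exact mul_neg_of_neg_of_pos (hY' z hz h1) (show up w by tauto)
  have mem : ∀ {x y : Pt}, y ∈ S → y ≠ x → y ∈ (S : Set Pt) \ {x} := fun h1 h2 => ⟨h1, h2⟩
  obtain ⟨x, hx0, hxa, hx1, hx2, hx3⟩ := greedy a b up (9 / 5) (by norm_num)
    (fun z t => if up z then Good t else Good (9 / 5 * t))
    (by
      intro z x y hx hxy
      by_cases h : up z
      · simpa [h] using good_dense hx hxy
      · obtain ⟨T, hT, h1, h2⟩ := good_dense (x := 9 / 5 * x) (y := 9 / 5 * y) (by positivity)
          (by linarith)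
        refine ⟨5 / 9 * T, ?_, by linarith, by linarith⟩
        simp only [h, if_false]
        rwa [show 9 / 5 * (5 / 9 * T) = T by ring])
    R
    (by
      intro z hz w hw huw hlt
      by_contra hcon
      push Not at hcon
      have hzw : z ≠ w := by rintro rfl; exact lt_irrefl _ hlt
      have e1 := ha z hz w hw
      have e2 := hb z hz w hw
      have e3 := hYY z hz w hw huw
      have d1 : dt p z w < 0 := by
        have : dt p z w * L < 0 := by rw [e1]; exact mul_neg_of_pos_of_neg e3 (by linarith)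
        by_contra h; push Not at h
        linarith [mul_nonneg h hL0.le]
      have d2 : 0 ≤ dt q z w := by
        have : 0 ≤ dt q z w * L := by rw [e2]; exact mul_nonneg e3.le (by linarith)
        by_contra h; push Not at h
        linarith [mul_neg_of_neg_of_pos h hL0]
      obtain ⟨z1, z2, z3⟩ := (hR z).1 hz
      obtain ⟨w1, w2, w3⟩ := (hR w).1 hw
      by_cases h : up z
      · refine hv w w1 w2 w3 (tri_mem (z := p) (v := q) (u := z) (mem hp w2.symm)
          (mem hq w3.symm) (mem z1 hzw) ?_ ?_ (huw.1 h).le h)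
        · rw [← dt_cyc]; exact d2
        · rw [dt_swap']; linarith
      · refine hv z z1 z2 z3 (tri_mem (z := q) (v := p) (u := w) (mem hq z3.symm)
          (mem hp z2.symm) (mem w1 hzw.symm) ?_ d2 ?_ ?_)
        · rw [dt_swap]; linarith
        · rw [dt_swap]; linarith [hY' z hz h]
        · rw [dt_swap]; linarith [hY' w hw (fun e => h (huw.2 e))])
    (by
      intro z _ h
      exact div_lt_div_of_pos_right (by linarith) h)
    (by
      intro z hz h
      exact div_lt_div_of_neg_of_lt (hY' z hz h) (by linarith))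
    (by
      intro z hz w hw e
      by_contra hne
      have := ha z hz w hw
      rw [e, sub_self, mul_zero] at this
      exact hgp.dt_ne hp ((hR z).1 hz).1 ((hR w).1 hw).1 ((hR z).1 hz).2.1.symm
        ((hR w).1 hw).2.1.symm hne ((mul_eq_zero.1 this).resolve_right hL0.ne'))
  let s : Pt → ℚ := fun z => if up z then 1 / x z else - x z
  let f : Pt → Pt := fun z => if z = p then ax 0 else if z = q then ax (2 / 7) else circ (s z)
  have fp : f p = ax 0 := by simp [f]
  have fq : f q = ax (2 / 7) := by simp [f, hpq.symm]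
  have fz : ∀ z ∈ R, f z = circ (s z) := fun z hz => by
    simp [f, ((hR z).1 hz).2.1, ((hR z).1 hz).2.2]
  have hs : ∀ z ∈ R, CGood (s z) := by
    intro z hz
    obtain ⟨h1, h2⟩ := hx0 z hz
    by_cases h : up z
    · simp only [s, h, if_true] at h2 ⊢
      exact cgood_inv h2 h1.ne'
    · simp only [s, h, if_false] at h2 ⊢
      exact (cgood_mul h2).neg
  have H1 : ∀ z ∈ R, dt (ax 0) (ax (2 / 7)) (circ (s z)) =
      4 / 7 * ((s z : ℚ) : ℝ) / (1 + ((s z : ℚ) : ℝ) ^ 2) := by
    intro z _
    simp only [dt, circ0, circ1, ax0, ax1]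
    push_cast
    field_simp
    ring
  have H1p : ∀ z ∈ R, 0 < dt p q z → 0 < dt (ax 0) (ax (2 / 7)) (circ (s z)) := by
    intro z hz h
    rw [H1 z hz]
    have h1 : 0 < s z := by
      have h' : up z := h
      simp only [s, h', if_true]
      exact one_div_pos.2 (hx0 z hz).1
    have : (0 : ℝ) < ((s z : ℚ) : ℝ) := by exact_mod_cast h1
    positivity
  have H1n : ∀ z ∈ R, dt p q z < 0 → dt (ax 0) (ax (2 / 7)) (circ (s z)) < 0 := by
    intro z hz h
    rw [H1 z hz]
    have h1 : s z < 0 := by
      have h' : ¬ up z := not_lt.2 h.le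
      simp only [s, h', if_false]
      linarith [(hx0 z hz).1]
    have : ((s z : ℚ) : ℝ) < 0 := by exact_mod_cast h1
    exact div_neg_of_neg_of_pos (by linarith) (by positivity)
  have H2p : ∀ z ∈ R, ∀ w ∈ R, 0 < dt p z w → 0 < dt (ax 0) (circ (s z)) (circ (s w)) := by
    intro z hz w hw h
    rw [dt_zero_circ]
    have e := ha z hz w hw
    have e' := mul_pos h hL0
    rw [e] at e'
    have xz := (hx0 z hz).1
    have xw := (hx0 w hw).1
    have : 0 < (s w - s z) * (1 + s z * s w) := by
      by_cases huw : up z ↔ up w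
      · have h1 : a w < a z := by
          have := (pos_iff_pos_of_mul_pos e').1 (hYY z hz w hw huw)
          linarith
        have h2 := hxa w hw z hz h1
        by_cases h3 : up z
        · simp only [s, h3, huw.1 h3, if_true]
          exact mul_pos (sub_pos.2 (one_div_lt_one_div_of_lt xw h2)) (by positivity)
        · have h4 : ¬ up w := fun e => h3 (huw.2 e)
          simp only [s, h3, h4, if_false]
          exact mul_pos (by linarith) (by nlinarith [mul_pos xz xw])
      · have h1 : a z < a w := by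
          have := (neg_iff_neg_of_mul_pos e').1 (hYY' z hz w hw huw)
          linarith
        have h2 := hxa z hz w hw h1
        by_cases h3 : up z
        · have h4 : ¬ up w := by tauto
          simp only [s, h3, h4, if_true, if_false]
          refine mul_pos_of_neg_of_neg (by linarith [one_div_pos.2 xz]) ?_
          have : 1 + 1 / x z * -x w = (x z - x w) / x z := by field_simp; ring
          rw [this]
          exact div_neg_of_neg_of_pos (by linarith) xz
        · have h4 : up w := by tauto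
          simp only [s, h3, h4, if_true, if_false]
          refine mul_pos (by linarith [one_div_pos.2 xw]) ?_
          have : 1 + -x z * (1 / x w) = (x w - x z) / x w := by field_simp; ring
          rw [this]
          exact div_pos (by linarith) xw
    have : (0 : ℝ) < (((s w - s z) * (1 + s z * s w) : ℚ) : ℝ) := by exact_mod_cast this
    positivity
  have H2q : ∀ z ∈ R, ∀ w ∈ R, 0 < dt q z w →
      0 < dt (ax (2 / 7)) (circ (s z)) (circ (s w)) := by
    intro z hz w hw h
    rw [dt_in_circ]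
    have e := hb z hz w hw
    have e' := mul_pos h hL0
    rw [e] at e'
    have xz := (hx0 z hz).1
    have xw := (hx0 w hw).1
    have : 0 < (s w - s z) * (5 / 9 + s z * s w) := by
      by_cases huw : up z ↔ up w
      · have h1 : b w < b z := by
          have := (pos_iff_pos_of_mul_pos e').1 (hYY z hz w hw huw)
          linarith
        have h2 := hx1 w hw z hz huw.symm h1
        by_cases h3 : up z
        · simp only [s, h3, huw.1 h3, if_true]
          exact mul_pos (sub_pos.2 (one_div_lt_one_div_of_lt xw h2)) (by positivity)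
        · have h4 : ¬ up w := fun e => h3 (huw.2 e)
          simp only [s, h3, h4, if_false]
          exact mul_pos (by linarith) (by nlinarith [mul_pos xz xw])
      · have h1 : b z < b w := by
          have := (neg_iff_neg_of_mul_pos e').1 (hYY' z hz w hw huw)
          linarith
        by_cases h3 : up z
        · have h4 : ¬ up w := by tauto
          have h2 := hx2 z hz w hw h3 h4 h1
          simp only [s, h3, h4, if_true, if_false]
          refine mul_pos_of_neg_of_neg (by linarith [one_div_pos.2 xz]) ?_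
          have : 5 / 9 + 1 / x z * -x w = (5 / 9 * x z - x w) / x z := by field_simp; ring
          rw [this]
          exact div_neg_of_neg_of_pos (by linarith) xz
        · have h4 : up w := by tauto
          have h2 := hx3 z hz w hw h3 h4 h1
          simp only [s, h3, h4, if_true, if_false]
          refine mul_pos (by linarith [one_div_pos.2 xw]) ?_
          have : 5 / 9 + -x z * (1 / x w) = (5 / 9 * x w - x z) / x w := by field_simp; ring
          rw [this]
          exact div_pos (by linarith) xw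
    have : (0 : ℝ) < (((s w - s z) * (5 / 9 + s z * s w) : ℚ) : ℝ) := by exact_mod_cast this
    positivity
  have Maj : ∀ z ∈ R, ∀ w ∈ R, ∀ v ∈ R, 0 < dt p w v → 0 < dt p z w → 0 < dt z w v := by
    intro z hz w hw v hv' h1 h2
    by_contra hcon
    push Not at hcon
    obtain ⟨w1, w2, w3⟩ := (hR w).1 hw
    refine hv w w1 w2 w3 (tri_mem (z := p) (v := z) (u := v) (mem hp w2.symm)
      (mem ((hR z).1 hz).1 (ne_of_dt h2.ne').2.2)
      (mem ((hR v).1 hv').1 (ne_of_dt h1.ne').2.2.symm) ?_ h1.le h2.le ?_)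
    · rw [dt_swap]; linarith
    · have := dt_sum p z w v
      rw [dt_swap']; linarith
  have H3 : ∀ z ∈ R, ∀ w ∈ R, ∀ v ∈ R, 0 < dt z w v →
      0 < dt (circ (s z)) (circ (s w)) (circ (s v)) := by
    intro z hz w hw v hv' h
    obtain ⟨n1, n2, n3⟩ := ne_of_dt h.ne'
    have nz : ∀ z ∈ R, ∀ w ∈ R, z ≠ w → 0 < dt p z w ∨ 0 < dt p w z := by
      intro z hz w hw hne
      have := hgp.dt_ne hp ((hR z).1 hz).1 ((hR w).1 hw).1 ((hR z).1 hz).2.1.symm
        ((hR w).1 hw).2.1.symm hne
      rcases lt_or_gt_of_ne this with h | h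
      · right; rw [dt_swap']; linarith
      · left; exact h
    have c1 := dt_cyc (circ (s z)) (circ (s w)) (circ (s v))
    have c2 := dt_cyc (circ (s w)) (circ (s v)) (circ (s z))
    have m1 := Maj v hv' w hw z hz
    have m2 := Maj w hw z hz v hv'
    have m3 := Maj z hz v hv' w hw
    have r1 : dt v w z = - dt z w v := by unfold dt; ring
    have r2 : dt w z v = - dt z w v := by unfold dt; ring
    have r3 : dt z v w = - dt z w v := by unfold dt; ring
    rcases nz w hw v hv' n3 with α | α <;> rcases nz v hv' z hz n2.symm with β | β <;>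
      rcases nz z hz w hw n1 with γ | γ
    · exact maj_circ _ _ _ (H2p w hw v hv' α) (H2p z hz w hw γ)
    · rw [← c1]; exact maj_circ _ _ _ (H2p v hv' z hz β) (H2p w hw v hv' α)
    · exact maj_circ _ _ _ (H2p w hw v hv' α) (H2p z hz w hw γ)
    · linarith [m2 β γ]
    · rw [← c1, ← c2]; exact maj_circ _ _ _ (H2p z hz w hw γ) (H2p v hv' z hz β)
    · linarith [m1 γ α]
    · linarith [m3 α β]
    · linarith [m3 α β]
  have Pp : ∀ b ∈ S, ∀ c ∈ S, 0 < dt p b c → 0 < dt (f p) (f b) (f c) := by
    intro b hb c hc h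
    obtain ⟨n1, n2, n3⟩ := ne_of_dt h.ne'
    by_cases h1 : b = q
    · rw [h1] at h n3 ⊢
      have hc' := (hR c).2 ⟨hc, n2.symm, n3.symm⟩
      rw [fp, fq, fz c hc']
      exact H1p c hc' h
    have hb' := (hR b).2 ⟨hb, n1.symm, h1⟩
    by_cases h2 : c = q
    · rw [h2] at h ⊢
      rw [fp, fq, fz b hb', dt_swap']
      rw [dt_swap'] at h
      linarith [H1n b hb' (by linarith)]
    have hc' := (hR c).2 ⟨hc, n2.symm, h2⟩
    rw [fp, fz b hb', fz c hc']
    exact H2p b hb' c hc' h
  have Pq : ∀ b ∈ S, ∀ c ∈ S, b ≠ p → c ≠ p → 0 < dt q b c → 0 < dt (f q) (f b) (f c) := by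
    intro b hb c hc h1 h2 h
    obtain ⟨n1, n2, n3⟩ := ne_of_dt h.ne'
    have hb' := (hR b).2 ⟨hb, h1, n1.symm⟩
    have hc' := (hR c).2 ⟨hc, h2, n2.symm⟩
    rw [fq, fz b hb', fz c hc']
    exact H2q b hb' c hc' h
  have hpos : ∀ a ∈ S, ∀ b ∈ S, ∀ c ∈ S, 0 < dt a b c → 0 < dt (f a) (f b) (f c) := by
    intro a ha b hb c hc h
    by_cases a1 : a = p
    · rw [a1] at h ⊢; exact Pp b hb c hc h
    by_cases b1 : b = p
    · rw [b1, ← dt_cyc] at h ⊢; exact Pp c hc a ha h
    by_cases c1 : c = p
    · rw [c1, ← dt_cyc, ← dt_cyc] at h ⊢; exact Pp a ha b hb h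
    by_cases a2 : a = q
    · rw [a2] at h ⊢; exact Pq b hb c hc b1 c1 h
    by_cases b2 : b = q
    · rw [b2, ← dt_cyc] at h ⊢; exact Pq c hc a ha c1 a1 h
    by_cases c2 : c = q
    · rw [c2, ← dt_cyc, ← dt_cyc] at h ⊢; exact Pq a ha b hb a1 b1 h
    have ha' := (hR a).2 ⟨ha, a1, a2⟩
    have hb' := (hR b).2 ⟨hb, b1, b2⟩
    have hc' := (hR c).2 ⟨hc, c1, c2⟩
    rw [fz a ha', fz b hb', fz c hc']
    exact H3 a ha' b hb' c hc' h
  have hnz : ∀ a ∈ S, ∀ b ∈ S, ∀ c ∈ S, a ≠ b → a ≠ c → b ≠ c → f a ≠ f b := by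
    intro a ha b hb c hc h1 h2 h3
    rcases lt_or_gt_of_ne (hgp.dt_ne ha hb hc h1 h2 h3) with h | h
    · exact (ne_of_dt (hpos b hb a ha c hc (by rw [dt_swap]; linarith)).ne').1.symm
    · exact (ne_of_dt (hpos a ha b hb c hc h).ne').1
  have hfpq : f p ≠ f q := by
    rw [fp, fq]
    intro e
    have := congrArg (fun y : Pt => y 0) e
    simp only [ax0] at this
    norm_num at this
  refine intRealizable_of hgp f ?_ hpos ?_
  · intro a ha b hb e
    by_contra hne
    by_cases a1 : a = p
    · by_cases b2 : b = q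
      · rw [a1, b2] at e; exact hfpq e
      · exact hnz a ha b hb q hq hne (a1 ▸ hpq) b2 e
    · by_cases b1 : b = p
      · by_cases a2 : a = q
        · rw [a2, b1] at e; exact hfpq e.symm
        · exact hnz a ha b hb q hq hne a2 (b1 ▸ hpq) e
      · exact hnz a ha b hb p hp hne a1 b1 e
  · have cases : ∀ a ∈ S, f a = ax 0 ∨ f a = ax (2 / 7) ∨ ∃ t, CGood t ∧ f a = circ t := by
      intro a ha
      by_cases a1 : a = p
      · left; rw [a1, fp]
      by_cases a2 : a = q
      · right; left; rw [a2, fq]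
      have ha' := (hR a).2 ⟨ha, a1, a2⟩
      exact Or.inr (Or.inr ⟨_, hs a ha', fz a ha'⟩)
    intro a ha b hb
    rcases cases a ha with h1 | h1 | ⟨t, ht, h1⟩ <;>
      rcases cases b hb with h2 | h2 | ⟨u, hu, h2⟩ <;> rw [h1, h2]
    · exact dist_ax _ _
    · exact dist_ax _ _
    · rw [dist_comm]; exact dist_circ_zero _
    · exact dist_ax _ _
    · exact dist_ax _ _
    · rw [dist_comm]; exact dist_circ_in hu
    · exact dist_circ_zero _
    · exact dist_circ_in ht
    · exact dist_circ ht hu

theorem small_case {S : Finset Pt} (h : S.card ≤ 1) : IntRealizable S := by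
  have e : ∀ a ∈ S, ∀ b ∈ S, a = b := card_le_one.1 h
  refine ⟨id, Set.injOn_id _, fun _ _ _ _ _ _ => rfl, ?_⟩
  intro a ha b hb
  exact ⟨0, by simp [e a ha b hb]⟩

theorem two_interior {S : Finset Pt} (hgp : GeneralPosition S)
    (h : {x : Pt | x ∈ S ∧ x ∈ convexHull ℝ ((S : Set Pt) \ {x})}.ncard ≤ 2) :
    IntRealizable S := by
  classical
  rcases le_or_gt S.card 1 with h1 | h1
  · exact small_case h1
  have e : {x : Pt | x ∈ S ∧ x ∈ convexHull ℝ ((S : Set Pt) \ {x})} =
      ((S.filter (fun x => x ∈ convexHull ℝ ((S : Set Pt) \ {x})) : Finset Pt) : Set Pt) := by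
    ext x; simp
  rw [e, Set.ncard_coe_finset] at h
  obtain ⟨T, hT1, hT2, hT3⟩ := exists_subsuperset_card_eq (filter_subset _ S) h h1
  obtain ⟨p, q, hpq, rfl⟩ := card_eq_two.1 hT3
  refine two_core hgp (hT2 (by simp)) (hT2 (by simp)) hpq ?_
  intro x hx h1 h2 h3
  have := hT1 (mem_filter.2 ⟨hx, h3⟩)
  simp [h1, h2] at this

end Pool.Agent.P.MP_a62d3c_co
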